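import Mathlib

/-! # Shifted Heller constant (MP_ba6ea3_co): definitions

Rows are elements of a type `ι`, a column is a function `ι → ℝ`, a family of columns is a
`Finset (ι → ℝ)`. Everything is classical. -/

open scoped Classical

namespace Pool.Agent.W836.SH

noncomputable section

variable {ι : Type}

/-- every square submatrix of the matrix with columns `V` has determinant in `[-1,1]` -/
def TS (V : Finset (ι → ℝ)) : Prop :=
  ∀ (k : ℕ) (r : Fin k → ι) (c : Fin k → ι → ℝ), (∀ j, c j ∈ V) →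
    |(Matrix.of fun i j => c j (r i) : Matrix (Fin k) (Fin k) ℝ).det| ≤ 1

/-- closed under negation -/
def Sym (V : Finset (ι → ℝ)) : Prop := ∀ v ∈ V, -v ∈ V

/-- `x = ± 1/2` -/
def hf (x : ℝ) : Prop := x = 1 / 2 ∨ x = -(1 / 2)

/-- `x = ± 1` -/
def pm (x : ℝ) : Prop := x = 1 ∨ x = -1

def HalfOn (H : Finset ι) (V : Finset (ι → ℝ)) : Prop := ∀ v ∈ V, ∀ h ∈ H, hf (v h)

def IntOn (R : Finset ι) (V : Finset (ι → ℝ)) : Prop :=
  ∀ v ∈ V, ∀ i ∈ R, v i = 0 ∨ v i = 1 ∨ v i = -1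

def SuppOn (I : Finset ι) (V : Finset (ι → ℝ)) : Prop := ∀ v ∈ V, ∀ i, i ∉ I → v i = 0

/-- restriction of a column to the rows `I` (zero elsewhere) -/
def res (I : Finset ι) (v : ι → ℝ) : ι → ℝ := fun i => if i ∈ I then v i else 0

/-- projection of a family to the rows `I` -/
def pr (I : Finset ι) (V : Finset (ι → ℝ)) : Finset (ι → ℝ) := V.image (res I)

/-- restrictions to `I` of the columns of `V` that have a partner in `V` agreeing on `I` and
different in row `s` -/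
def XX (s : ι) (I : Finset ι) (V : Finset (ι → ℝ)) : Finset (ι → ℝ) :=
  (V.filter (fun v => ∃ w ∈ V, (∀ i ∈ I, w i = v i) ∧ w s ≠ v s)).image (res I)

/-- the columns of `V` that vanish on `R` -/
def V0 (R : Finset ι) (V : Finset (ι → ℝ)) : Finset (ι → ℝ) :=
  V.filter (fun v => ∀ i ∈ R, v i = 0)

/-- for any `k` rows and `k+1` columns the sum of the absolute values of the `k × k` minors
is at most `2` -/
def STAR (X : Finset (ι → ℝ)) : Prop :=
  ∀ (k : ℕ) (r : Fin k → ι) (x : Fin (k + 1) → ι → ℝ), (∀ j, x j ∈ X) →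
    ∑ j : Fin (k + 1),
      |(Matrix.of fun i l => x (j.succAbove l) (r i) : Matrix (Fin k) (Fin k) ℝ).det| ≤ 2

/-- all 16 sign patterns occur on the rows `p q r u` -/
def Full4 (U : Finset (ι → ℝ)) (p q r u : ι) : Prop :=
  ∀ a b c d : ℝ, hf a → hf b → hf c → hf d → ∃ v ∈ U, v p = a ∧ v q = b ∧ v r = c ∧ v u = d

/-- a frame at `s` over the rows `P`: the rows `P` are partitioned by `φ` in three non-empty
classes, and the sign of row `s` and the signs of the three classes can be chosen freely -/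
def Frame (U : Finset (ι → ℝ)) (s : ι) (P : Finset ι) (φ : ι → Fin 3) (σ : ι → ℝ) : Prop :=
  (∀ p ∈ P, pm (σ p)) ∧ (∀ q : Fin 3, ∃ p ∈ P, φ p = q) ∧
  ∀ (e0 : ℝ) (e : Fin 3 → ℝ), hf e0 → (∀ q, hf (e q)) →
    ∃ u ∈ U, u s = e0 ∧ ∀ p ∈ P, u p = σ p * e (φ p)

/-- ties: two columns of `V` that differ in row `a` and agree in rows `b`, `c` have a fixed
product of the entries in rows `b` and `c` -/
def TIE (W : Finset ι) (V : Finset (ι → ℝ)) : Prop :=
  ∀ a ∈ W, ∀ b ∈ W, ∀ c ∈ W, a ≠ b → a ≠ c → b ≠ c → ∃ κ : ℝ, pm κ ∧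
    ∀ v ∈ V, ∀ w ∈ V, v b = w b → v c = w c → v a ≠ w a → v c = κ * v b

/-- excess of the projection of `X` to the rows `R ∪ P` -/
def ee (R P : Finset ι) (X : Finset (ι → ℝ)) : ℤ :=
  ((pr (R ∪ P) X).card : ℤ) - 2 * ((R.card : ℤ) + (P.card : ℤ))

/-- two elements `x,x'` of `V` that differ exactly by the sign in row `s` -/
def FLIP (s : ι) (x x' : ι → ℝ) : Prop := x s = 1 / 2 ∧ x' s = -(1 / 2) ∧ ∀ i, i ≠ s → x i = x' i

/-- two flip pairs at `s`, with the same non-zero restriction to `R` -/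
def KK (R : Finset ι) (V : Finset (ι → ℝ)) (s : ι) (x x' y y' : ι → ℝ) : Prop :=
  x ∈ V ∧ x' ∈ V ∧ y ∈ V ∧ y' ∈ V ∧ FLIP s x x' ∧ FLIP s y y' ∧
  (∀ i ∈ R, x i = y i) ∧ ∃ i ∈ R, x i ≠ 0

/-- standing hypotheses on a symmetric family with integral rows `R` and half rows `H` -/
def SYS (R H : Finset ι) (V : Finset (ι → ℝ)) : Prop :=
  Disjoint R H ∧ TS V ∧ Sym V ∧ IntOn R V ∧ HalfOn H V ∧ SuppOn (R ∪ H) V

/-! ## the part with `τ < 1/2` -/

/-- property of the family of columns having both values `τ`, `τ - 1` in an extra row -/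
def PA (τ : ℝ) (X : Finset (ι → ℝ)) : Prop :=
  ∀ (k : ℕ) (r : Fin k → ι) (x : Fin (k + 1) → ι → ℝ) (v : Fin (k + 1) → ℝ),
    (∀ j, x j ∈ X) → (∀ j, v j = τ ∨ v j = τ - 1) →
    |(Matrix.of (Fin.cons v (fun i j => x j (r i))) :
      Matrix (Fin (k + 1)) (Fin (k + 1)) ℝ).det| ≤ 1

/-- 0/1 matrix of a configuration of sets, with a first row of ones -/
def IM {k : ℕ} (r : Fin k → ι) (S : Fin (k + 1) → Finset ι) :
    Matrix (Fin (k + 1)) (Fin (k + 1)) ℝ :=
  Matrix.of (Fin.cons (fun _ => 1) (fun i j => if r i ∈ S j then 1 else 0))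

/-- weights: a unimodular simplex of members of `F` has small negative barycentric
coordinates of the point `o` -/
def FW (τ : ℝ) (o : ι → ℝ) (F : Finset (Finset ι)) : Prop :=
  ∀ (k : ℕ) (r : Fin k → ι) (S : Fin (k + 1) → Finset ι) (l : Fin (k + 1) → ℝ),
    (∀ j, S j ∈ F) → (∀ i, ∑ j, l j * (if r i ∈ S j then 1 else 0) = o (r i)) →
    ∑ j, l j = 1 → |(IM r S).det| = 1 → ∑ j, max (-(l j)) 0 ≤ τ

/-- no simplex of volume two -/
def FV (F : Finset (Finset ι)) : Prop :=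
  ∀ (k : ℕ) (r : Fin k → ι) (S : Fin (k + 1) → Finset ι), (∀ j, S j ∈ F) → |(IM r S).det| < 2

/-- square rule: on four members realising the four patterns on the rows `a`, `i`, a constant
row `j` has its value at distance at most `1/2` from `o j` -/
def FSQ (o : ι → ℝ) (F : Finset (Finset ι)) : Prop :=
  ∀ (a i j : ι) (S00 S10 S01 S11 : Finset ι), S00 ∈ F → S10 ∈ F → S01 ∈ F → S11 ∈ F →
    (a ∉ S00 ∧ i ∉ S00) → (a ∈ S10 ∧ i ∉ S10) → (a ∉ S01 ∧ i ∈ S01) → (a ∈ S11 ∧ i ∈ S11) →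
    ((j ∈ S00 ∧ j ∈ S10 ∧ j ∈ S01 ∧ j ∈ S11) → 1 - o j ≤ 1 / 2) ∧
    ((j ∉ S00 ∧ j ∉ S10 ∧ j ∉ S01 ∧ j ∉ S11) → o j ≤ 1 / 2)

def FG (τ : ℝ) (o : ι → ℝ) (F : Finset (Finset ι)) : Prop := FW τ o F ∧ FV F ∧ FSQ o F

/-- the sets not containing `i` that stay in `F` both with and without `i` -/
def Zf (i : ι) (F : Finset (Finset ι)) : Finset (Finset ι) :=
  F.filter (fun S => i ∉ S ∧ insert i S ∈ F)

end

end Pool.Agent.W836.SH
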