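import Pool.Agent.W836.SH.Defs

/-! # Shifted Heller constant (MP_ba6ea3_co): statements of the lemmas -/

open scoped Classical

namespace Pool.Agent.W836.SH

noncomputable section

/-! ## basics -/

/-- scaling rows and columns by signs -/
def S_SL : Prop := ∀ (ι : Type) (V : Finset (ι → ℝ)), TS V →
  ∀ (k : ℕ) (r : Fin k → ι) (c : Fin k → ι → ℝ) (d e : Fin k → ℝ)
    (M : Matrix (Fin k) (Fin k) ℝ), (∀ j, c j ∈ V) → (∀ i, pm (d i)) → (∀ j, pm (e j)) →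
    (∀ i j, c j (r i) = d i * M i j * e j) → |M.det| ≤ 1

def S_TSPR : Prop := ∀ (ι : Type) (V : Finset (ι → ℝ)) (I : Finset ι) (s : ι), TS V →
  TS (pr I V) ∧ TS (XX s I V) ∧ TS (V ∪ V.image (fun v => -v))

def S_STARXX : Prop := ∀ (ι : Type) (V : Finset (ι → ℝ)) (I : Finset ι) (s : ι), TS V →
  HalfOn {s} V → s ∉ I → STAR (XX s I V) ∧ ∀ P : Finset ι, STAR (pr P (XX s I V))

/-- counting: removing a two-valued row -/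
def S_CNT : Prop := ∀ (ι : Type) (V : Finset (ι → ℝ)) (I : Finset ι) (s : ι) (a b : ℝ),
  s ∈ I → SuppOn I V → (∀ v ∈ V, v s = a ∨ v s = b) →
  V.card ≤ (pr (I.erase s) V).card + (XX s (I.erase s) V).card

/-! ## integral rows -/

def S_R1 : Prop := ∀ (ι : Type) (R : Finset ι) (X : Finset (ι → ℝ)), STAR X → TS X → Sym X →
  IntOn R X → SuppOn R X → (0 : ι → ℝ) ∉ X → X.card ≤ 2 * R.card

def S_HELLER : Prop := ∀ (ι : Type) (R : Finset ι) (V : Finset (ι → ℝ)), TS V →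
  IntOn R V → SuppOn R V → V.card ≤ R.card ^ 2 + R.card + 1

def S_BONE : Prop := ∀ (ι : Type) (R : Finset ι) (V : Finset (ι → ℝ)) (s : ι), s ∉ R →
  SYS R {s} V → (XX s R V).card ≤ 2 * R.card + 1

/-! ## five- and six-row facts -/

/-- antipodal pair -/
def S_APD : Prop := ∀ (ι : Type) (V : Finset (ι → ℝ)) (p q r u w : ι) (σ : ℝ) (z z' : ι → ℝ),
  TS V → pm σ →
  (∀ a b c d : ℝ, hf a → hf b → hf c → hf d →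
    ∃ v ∈ V, v p = a ∧ v q = b ∧ v r = c ∧ v u = d ∧ v w = σ * d) →
  z ∈ V → z' ∈ V → hf (z p) → hf (z q) → hf (z r) → hf (z u) →
  z' p = -(z p) → z' q = -(z q) → z' r = -(z r) → z' u = z u →
  z w = -(σ * z u) → z' w = -(σ * z u) → False

/-- fork -/
def S_FORK : Prop := ∀ (ι : Type) (V : Finset (ι → ℝ)) (s a x y b c : ι)
  (σ₁ σ₂ ρ₁ ρ₂ : ℝ), TS V → pm σ₁ → pm σ₂ → pm ρ₁ → pm ρ₂ →
  (∀ e0 e1 e2 e3 : ℝ, hf e0 → hf e1 → hf e2 → hf e3 → ∃ v ∈ V, v s = e0 ∧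
    v a = e1 ∧ v x = σ₁ * e1 ∧ v y = σ₂ * e1 ∧ v b = e2 ∧ v c = e3) →
  (∀ e0 e1 e2 e3 : ℝ, hf e0 → hf e1 → hf e2 → hf e3 → ∃ v ∈ V, v s = e0 ∧
    v a = e1 ∧ v b = e2 ∧ v x = ρ₁ * e2 ∧ v c = e3 ∧ v y = ρ₂ * e3) → False

/-- path -/
def S_PATH : Prop := ∀ (ι : Type) (V : Finset (ι → ℝ)) (s a x y b c : ι)
  (σ₁ σ₂ ρ₁ ρ₂ : ℝ), TS V → pm σ₁ → pm σ₂ → pm ρ₁ → pm ρ₂ →
  (∀ e0 e1 e2 e3 : ℝ, hf e0 → hf e1 → hf e2 → hf e3 → ∃ v ∈ V, v s = e0 ∧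
    v a = e1 ∧ v x = σ₁ * e1 ∧ v b = e2 ∧ v y = σ₂ * e2 ∧ v c = e3) →
  (∀ e0 e1 e2 e3 : ℝ, hf e0 → hf e1 → hf e2 → hf e3 → ∃ v ∈ V, v s = e0 ∧
    v a = e1 ∧ v b = e2 ∧ v x = ρ₁ * e2 ∧ v c = e3 ∧ v y = ρ₂ * e3) → False

/-- contraction of one integral row -/
def S_C1 : Prop := ∀ (ι : Type) (V : Finset (ι → ℝ)) (i : ι) (z z' : ι → ℝ), TS V →
  z ∈ V → z' ∈ V → z i = z' i → pm (z i) → ∀ (n : ℕ) (r : Fin (n + 1) → ι)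
  (t : Fin n → ι → ℝ), (∀ j, t j ∈ V) → (∀ j, t j i = 0) →
  |(Matrix.of fun a b => (Fin.cons (z - z') t : Fin (n + 1) → ι → ℝ) b (r a) :
    Matrix (Fin (n + 1)) (Fin (n + 1)) ℝ).det| ≤ 1

/-- contraction of two integral rows -/
def S_C2 : Prop := ∀ (ι : Type) (V : Finset (ι → ℝ)) (i l : ι) (z z' y y' : ι → ℝ), TS V →
  z ∈ V → z' ∈ V → y ∈ V → y' ∈ V → z i = z' i → pm (z i) → z l = 0 → z' l = 0 →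
  y l = y' l → pm (y l) → y i = 0 → y' i = 0 → ∀ (n : ℕ) (r : Fin (n + 2) → ι)
  (t : Fin n → ι → ℝ), (∀ j, t j ∈ V) → (∀ j, t j i = 0) → (∀ j, t j l = 0) →
  |(Matrix.of fun a b =>
      (Fin.cons (z - z') (Fin.cons (y - y') t : Fin (n + 1) → ι → ℝ) :
        Fin (n + 2) → ι → ℝ) b (r a) :
    Matrix (Fin (n + 2)) (Fin (n + 2)) ℝ).det| ≤ 1

/-- two columns with the same entry `±1` in an integral row differ in at most two of four rows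
on which the columns vanishing in that row realise all patterns -/
def S_FD : Prop := ∀ (ι : Type) (V : Finset (ι → ℝ)) (i p q r u : ι) (z z' : ι → ℝ), TS V →
  Full4 (V.filter (fun v => v i = 0)) p q r u → z ∈ V → z' ∈ V → z i = z' i → pm (z i) →
  hf (z p) → hf (z q) → hf (z r) → hf (z u) → hf (z' p) → hf (z' q) → hf (z' r) → hf (z' u) →
  z p ≠ z' p → z q ≠ z' q → z r ≠ z' r → False

/-- square times hexagon at zero -/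
def S_F5 : Prop := ∀ (ι : Type) (V : Finset (ι → ℝ)) (i s j a b c : ι) (κa κb κc : ℝ)
  (x x' y y' : ι → ℝ), TS V → pm κa → pm κb → pm κc →
  (∀ e0 e1 e2 e3 : ℝ, hf e0 → hf e1 → hf e2 → hf e3 → ∃ v ∈ V, v i = 0 ∧ v s = e0 ∧
    v j = e1 ∧ v a = e2 ∧ v b = e3 ∧ v c = κa * e3) →
  (∀ e0 e1 e2 e3 : ℝ, hf e0 → hf e1 → hf e2 → hf e3 → ∃ v ∈ V, v i = 0 ∧ v s = e0 ∧
    v j = e1 ∧ v b = e2 ∧ v a = e3 ∧ v c = κb * e3) →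
  (∀ e0 e1 e2 e3 : ℝ, hf e0 → hf e1 → hf e2 → hf e3 → ∃ v ∈ V, v i = 0 ∧ v s = e0 ∧
    v j = e1 ∧ v c = e2 ∧ v a = e3 ∧ v b = κc * e3) →
  x ∈ V → x' ∈ V → y ∈ V → y' ∈ V → FLIP s x x' → FLIP s y y' →
  x i = y i → pm (x i) → s ≠ i → s ≠ j → s ≠ a → s ≠ b → s ≠ c →
  hf (x j) → hf (x a) → hf (x b) → hf (x c) → hf (y j) → hf (y a) → hf (y b) → hf (y c) →
  x a ≠ y a → False

/-- ties from two frames -/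
def S_TIE5 : Prop := ∀ (ι : Type) (V : Finset (ι → ℝ)) (s j a b c : ι) (κa κb : ℝ)
  (v w : ι → ℝ), TS V → pm κa → pm κb →
  (∀ e0 e1 e2 e3 : ℝ, hf e0 → hf e1 → hf e2 → hf e3 → ∃ v ∈ V, v s = e0 ∧
    v j = e1 ∧ v a = e2 ∧ v b = e3 ∧ v c = κa * e3) →
  (∀ e0 e1 e2 e3 : ℝ, hf e0 → hf e1 → hf e2 → hf e3 → ∃ v ∈ V, v s = e0 ∧
    v j = e1 ∧ v b = e2 ∧ v a = e3 ∧ v c = κb * e3) →
  v ∈ V → w ∈ V → hf (v s) → hf (v j) → hf (v a) → hf (v b) → hf (v c) →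
  hf (w s) → hf (w j) → hf (w a) → v b = w b → v c = w c → v a ≠ w a → v c = κa * v b

/-! ## frames -/

def S_CP : Prop := ∀ (ι : Type) (U : Finset (ι → ℝ)) (s : ι) (P : Finset ι)
  (φ ψ : ι → Fin 3) (σ ρ : ι → ℝ), TS U → Frame U s P φ σ → Frame U s P ψ ρ →
  ∃ a b : Fin 3, (∀ p ∈ P, φ p = a ↔ ψ p = b) ∧
    ∃ κ : ℝ, pm κ ∧ ∀ p ∈ P, φ p = a → σ p = κ * ρ p

def S_CG : Prop := ∀ (ι : Type) (U : Finset (ι → ℝ)) (s : ι) (P : Finset ι)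
  (φ ψ χ : ι → Fin 3) (σ ρ θ : ι → ℝ) (a b : Fin 3), TS U → HalfOn (insert s P) U →
  Frame U s P φ σ → Frame U s P ψ ρ → Frame U s P χ θ →
  (∀ p ∈ P, φ p = a ↔ ψ p = b) → (∃ p ∈ P, ∃ q ∈ P, φ p = φ q ∧ ψ p ≠ ψ q) →
  ∃ c : Fin 3, ∀ p ∈ P, φ p = a ↔ χ p = c

def S_CORE : Prop := ∀ (ι : Type) (U : Finset (ι → ℝ)) (s : ι) (P D : Finset ι), TS U →
  HalfOn (insert s P) U → D ⊆ P → P.card ≤ D.card + 1 → 4 ≤ P.card →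
  (∀ g ∈ D, ∃ φ σ, Frame U s P φ σ ∧ ∀ p ∈ P, φ p = φ g → p = g) →
  ∃ j ∈ P, ∀ g ∈ D, g ≠ j → ∃ φ σ, Frame U s P φ σ ∧ (∀ p ∈ P, φ p = φ j → p = j) ∧
    (∀ p ∈ P, φ p = φ g → p = g)

/-- the ties of the rows `P.erase j` -/
def S_TIEF : Prop := ∀ (ι : Type) (V U : Finset (ι → ℝ)) (s : ι) (P : Finset ι) (j : ι),
  TS V → U ⊆ V → HalfOn (insert s P) V → s ∉ P → j ∈ P → 4 ≤ P.card →
  (∀ g ∈ P, g ≠ j → ∃ φ σ, Frame U s P φ σ ∧ (∀ p ∈ P, φ p = φ j → p = j) ∧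
    (∀ p ∈ P, φ p = φ g → p = g)) → TIE (P.erase j) V

def S_COUNT : Prop := ∀ (ι : Type) (V : Finset (ι → ℝ)) (W : Finset ι), 2 ≤ W.card →
  HalfOn W V → TIE W V → (pr W V).card ≤ 2 * W.card

/-! ## cores -/

def S_RA0 : Prop := ∀ (ι : Type) (R P : Finset ι) (Y : Finset (ι → ℝ)), Disjoint R P →
  STAR Y → TS Y → Sym Y → IntOn R Y → HalfOn P Y → SuppOn (R ∪ P) Y → P.card ≤ 1 →
  Y.card ≤ 2 * R.card + 2 * P.card + 2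

def S_RA : Prop := ∀ (ι : Type) (R P : Finset ι) (Y : Finset (ι → ℝ)), Disjoint R P →
  STAR Y → TS Y → Sym Y → IntOn R Y → HalfOn P Y → SuppOn (R ∪ P) Y → 2 ≤ P.card →
  (∀ g ∈ P, (pr (R ∪ P.erase g) Y).card + 3 ≤ Y.card) →
  ((Y.card ≤ (V0 R Y).card + 2 * R.card ∧
      ∀ g ∈ P, 4 ≤ (XX g (R ∪ P.erase g) (V0 R Y)).card) ∨
   (∃ y ∈ Y, ∃ y' ∈ Y, y ≠ y' ∧ (∀ i ∈ R, y i = y' i) ∧ (∃ i ∈ R, y i ≠ 0) ∧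
      Y.card ≤ (V0 R Y).card + 2 * R.card + 2 ∧
      ∀ g ∈ P, (4 ≤ (XX g (R ∪ P.erase g) (V0 R Y)).card ∨ ∀ h ∈ P, h ≠ g → y h = y' h)))

/-- a frame from two lines -/
def S_FRM : Prop := ∀ (ι : Type) (R H P : Finset ι) (V : Finset (ι → ℝ)) (s g : ι),
  SYS R H V → s ∈ H → P ⊆ H.erase s → g ∈ P →
  4 ≤ (XX g (R ∪ P.erase g) (V0 R (pr (R ∪ P) (XX s ((R ∪ H).erase s) V)))).card →
  ∃ φ σ, Frame (V0 R V) s P φ σ ∧ ∀ p ∈ P, φ p = φ g → p = g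

/-- type lemma -/
def S_T : Prop := ∀ (ι : Type) (R H : Finset ι) (V : Finset (ι → ℝ)) (s : ι) (E : ℤ),
  SYS R H V → s ∈ H →
  (∀ P ⊆ H.erase s, ee R P (XX s ((R ∪ H).erase s) V) ≤ E) →
  (∃ P ⊆ H.erase s, ee R P (XX s ((R ∪ H).erase s) V) = E) → 3 ≤ E →
  (∃ W ⊆ H.erase s, 3 ≤ W.card ∧ E + 2 ≤ 2 * (W.card : ℤ) ∧ TIE W V) ∨
  (∃ D ⊆ H.erase s, ∃ j ∈ H.erase s, j ∉ D ∧ 2 ≤ D.card ∧ E ≤ 2 * (D.card : ℤ) ∧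
    (3 ≤ D.card → TIE D V) ∧
    (∀ a ∈ D, ∀ b ∈ D, a ≠ b → Full4 (V0 R V) s j a b) ∧
    ∃ x x' y y' : ι → ℝ, KK R V s x x' y y' ∧ x j ≠ y j ∧ ∀ d ∈ D, x d = y d)

/-- removing tied rows -/
def S_RED : Prop := ∀ (ι : Type) (R H D : Finset ι) (V : Finset (ι → ℝ)) (a : ι),
  SYS R H V → D ⊆ H → a ∈ D → 3 ≤ D.card → TIE D V →
  ∃ P ⊆ H.erase a, ee R P (XX a ((R ∪ H).erase a) V) =
    ee R (H.erase a) (XX a ((R ∪ H).erase a) V) + 2 * ((D.card : ℤ) - 2)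

def S_BETA : Prop := ∀ (ι : Type) (R H : Finset ι) (V : Finset (ι → ℝ)) (p q r u : ι)
  (x x' y y' z z' w w' : ι → ℝ), SYS R H V → p ∈ H → q ∈ H → r ∈ H → u ∈ H →
  p ≠ q → p ≠ r → p ≠ u → q ≠ r → q ≠ u → r ≠ u →
  Full4 (V0 R V) p q r u → KK R V p x x' y y' → x q ≠ y q → x r = y r → x u = y u →
  KK R V r z z' w w' →
  (∀ i ∈ R, x i = 0 ∨ z i = 0) ∧ z p = w p ∧ z q = w q ∧ z u = w u

def S_GAMMA : Prop := ∀ (ι : Type) (R H : Finset ι) (V : Finset (ι → ℝ)) (p q r u g : ι)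
  (x x' y y' z z' w w' : ι → ℝ), SYS R H V → p ∈ H → q ∈ H → r ∈ H → u ∈ H → g ∈ H →
  p ≠ q → p ≠ r → p ≠ u → q ≠ r → q ≠ u → r ≠ u → g ≠ p → g ≠ q → g ≠ r → g ≠ u →
  Full4 (V0 R V) p q r u → KK R V p x x' y y' → x q ≠ y q → x r = y r → x u = y u →
  KK R V r z z' w w' → (∀ i ∈ R, x i = 0 ∨ z i = 0) → z p = w p → z q = w q → z u = w u →
  z g ≠ w g →
  (∃ σ : ℝ, pm σ ∧ ∀ v ∈ V0 R V, v g = σ * v u) ∨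
  (x g ≠ y g ∧ ∃ σ : ℝ, pm σ ∧ ∀ v ∈ V0 R V, v g = σ * v q)

def S_B : Prop := ∀ (ι : Type) (R H : Finset ι) (V : Finset (ι → ℝ)), SYS R H V →
  2 ≤ H.card → ∃ s ∈ H, (XX s ((R ∪ H).erase s) V).card ≤ 2 * (R.card + H.card)

def S_BASE : Prop := ∀ (ι : Type) (R H : Finset ι) (V : Finset (ι → ℝ)), Disjoint R H →
  TS V → IntOn R V → HalfOn H V → SuppOn (R ∪ H) V →
  V.card ≤ (R.card + H.card) ^ 2 + (R.card + H.card) + 1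

/-! ## the part with `τ < 1/2` -/

/-- removal in set families -/
def S_FREM : Prop := ∀ (ι : Type) (F : Finset (Finset ι)) (i : ι) (τ : ℝ) (o : ι → ℝ),
  F.card ≤ (F.image (fun S => S.erase i)).card + (Zf i F).card ∧
  (o i ≤ 1 / 2 → FG τ o F → FG τ o (F.image (fun S => S.erase i)))

def S_AZ0 : Prop := ∀ (ι : Type) (F : Finset (Finset ι)) (o : ι → ℝ) (τ : ℝ) (i : ι),
  0 < τ → τ < 1 / 2 → FG τ o F → o i = 0 → (Zf i F).card ≤ 1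

def S_AP : Prop := ∀ (ι : Type) (F : Finset (Finset ι)) (o : ι → ℝ) (τ : ℝ) (i : ι),
  0 < τ → τ < 1 / 2 → FG τ o F → τ ≤ o i → 3 ≤ (Zf i F).card →
  (∀ a, ∀ Y ∈ Zf i F, ∀ Y' ∈ Zf i F, a ∈ Y → a ∉ Y' → o i ≤ o a ∧ o a ≤ 1 / 2) →
  o i = τ ∧ 1 / 3 ≤ τ ∧ (Zf i F).card = 3 ∧
  (∀ a, ∀ Y ∈ Zf i F, ∀ Y' ∈ Zf i F, a ∈ Y → a ∉ Y' →
    o a = τ ∧ ∀ Y'' ∈ Zf i F, a ∈ Y'' → Y'' = Y) ∧
  (∀ a b, ∀ Y ∈ Zf i F, ∀ Y' ∈ Zf i F, a ∈ Y → a ∉ Y' → b ∈ Y' → b ∉ Y →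
    ∀ S ∈ F, ¬ (a ∈ S ∧ b ∈ S))

def S_AE : Prop := ∀ (ι : Type) (F : Finset (Finset ι)) (o : ι → ℝ) (τ : ℝ) (i a b j : ι)
  (Yc Ya Yb : Finset ι), 1 / 3 ≤ τ → τ < 1 / 2 → FG τ o F →
  Yc ∈ Zf i F → Ya ∈ Zf i F → Yb ∈ Zf i F → a ∈ Ya → a ∉ Yc → a ∉ Yb → b ∈ Yb → b ∉ Yc →
  b ∉ Ya → o i = τ → o a = τ → o b = τ → (∀ S ∈ F, ¬ (a ∈ S ∧ b ∈ S)) → j ≠ i →
  (j ∈ Ya ↔ j ∈ Yc) → (j ∈ Yb ↔ j ∈ Yc) → τ ≤ o j → o j ≤ 1 / 2 →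
  ∀ S ∈ F, i ∈ S → (j ∈ S ↔ j ∈ Yc)

/-- final case: all rows have the same weight -/
def S_AFIN : Prop := ∀ (ι : Type) (I : Finset ι) (F : Finset (Finset ι)) (o : ι → ℝ) (τ : ℝ),
  0 < τ → τ < 1 / 2 → FG τ o F → (∀ S ∈ F, S ⊆ I) → (∀ i ∈ I, o i = τ) →
  (∀ i ∈ I, 3 ≤ (Zf i F).card) → F.card ≤ 2 * I.card + 1

def S_AFAM : Prop := ∀ (ι : Type) (I : Finset ι) (F : Finset (Finset ι)) (o : ι → ℝ) (τ : ℝ),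
  0 < τ → τ < 1 / 2 → FG τ o F → (∀ S ∈ F, S ⊆ I) →
  (∀ i ∈ I, o i = 0 ∨ (τ ≤ o i ∧ o i ≤ 1 / 2)) → F.card ≤ 2 * I.card + 2

/-- from real columns to set families -/
def S_A : Prop := ∀ (ι : Type) (I : Finset ι) (X : Finset (ι → ℝ)) (o : ι → ℝ) (τ : ℝ),
  0 < τ → τ < 1 / 2 → PA τ X → SuppOn I X → (∀ i ∈ I, ∀ x ∈ X, x i = -(o i) ∨ x i = 1 - o i) →
  (∀ i ∈ I, (τ ≤ o i ∧ o i ≤ 1 - τ) ∨ o i = 0 ∨ o i = 1) → X.card ≤ 2 * I.card + 2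

/-- adding a row with the smallest `τ` -/
def S_AX : Prop := ∀ (ι : Type) (I : Finset ι) (V : Finset (ι → ℝ)) (t : ι → ℝ) (s : ι),
  s ∉ I → TS V → (∀ i, 0 ≤ t i ∧ t i < 1) → t s ≠ 0 → t s ≠ 1 / 2 →
  (∀ v ∈ V, ∀ i ∈ insert s I, v i = t i - 1 ∨ v i = t i ∨ v i = t i + 1) →
  (∀ i ∈ I, t i ≠ 0 → |t i - 1 / 2| ≤ |t s - 1 / 2|) → (XX s I V).card ≤ 2 * I.card + 2

/-- main theorem, rows in a finset -/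
def S_MAIN : Prop := ∀ (ι : Type) (I : Finset ι) (V : Finset (ι → ℝ)) (t : ι → ℝ),
  TS V → SuppOn I V → (∀ i, 0 ≤ t i ∧ t i < 1) →
  (∀ v ∈ V, ∀ i ∈ I, v i = t i - 1 ∨ v i = t i ∨ v i = t i + 1) →
  V.card ≤ I.card ^ 2 + I.card + 1

end

end Pool.Agent.W836.SH
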