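import Pool.Agent.W836.SH.Stm

/-! # Shifted Heller constant (MP_ba6ea3_co): definitions of the final statement -/

open scoped Classical

namespace Pool.Agent.W836.SH

/-- every square submatrix (of every size) has determinant in `[-1,1]` -/
def TotallyOneSubmodular {m n : ℕ} (M : Matrix (Fin m) (Fin n) ℝ) : Prop :=
  ∀ (k : ℕ) (r : Fin k → Fin m) (c : Fin k → Fin n), Function.Injective r →
    Function.Injective c → |(M.submatrix r c).det| ≤ 1

/-- the numbers `n` of pairwise distinct columns of matrices `A` with entries in `{-1,0,1}` for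
which some non-zero shift `t ∈ [0,1)^m` makes `t + A` totally 1-submodular -/
def shiftedSet (m : ℕ) : Set ℕ :=
  {n | ∃ (t : Fin m → ℝ) (A : Matrix (Fin m) (Fin n) ℤ),
    (∀ i, 0 ≤ t i ∧ t i < 1) ∧ t ≠ 0 ∧ (∀ i j, A i j = -1 ∨ A i j = 0 ∨ A i j = 1) ∧
    (∀ j j', (∀ i, A i j = A i j') → j = j') ∧
    TotallyOneSubmodular (Matrix.of fun i j => t i + (A i j : ℝ))}

/-- the numbers `n` of pairwise distinct columns of integer matrices with `m` rows and rank `m`
all of whose `m × m` minors lie in `{-1,0,1}` -/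
def hellerSet (m : ℕ) : Set ℕ :=
  {n | ∃ M : Matrix (Fin m) (Fin n) ℤ, (M.map (Int.cast : ℤ → ℚ)).rank = m ∧
    (∀ j j', (∀ i, M i j = M i j') → j = j') ∧
    ∀ c : Fin m → Fin n, Function.Injective c →
      (M.submatrix id c).det = -1 ∨ (M.submatrix id c).det = 0 ∨ (M.submatrix id c).det = 1}

/-- Heller's theorem -/
def S_H1 : Prop := ∀ m : ℕ, IsGreatest (hellerSet m) (m ^ 2 + m + 1)

end Pool.Agent.W836.SH
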